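import Mathlib
import Pool.Agent.Run7.h566.BL.Place
import Pool.Agent.Run7.h566.BL.Words

/-!
The digits of the numbers `m n α + x_m + y_n`, `m ∈ A`, `n ∈ B`, where `A, B` are arbitrary sets of
integers below `M` with `|A| |B| ≥ M ^ (1 + δ)` and `x, y` arbitrary real functions.
-/

set_option autoImplicit false

open Finset
open scoped Classical

namespace Pool.Agent.Results.MP_175f55_nt.BilinearFamilies

/-- the digits of `y` in base `b` at the places `q + 1, …, q + k`, read as an integer below `b ^ k` -/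
noncomputable def word (b k : ℕ) (y : ℝ) (q : ℕ) : ℤ := ⌊y * (b : ℝ) ^ (q + k)⌋ % (b : ℤ) ^ k

/-- every word of `k` digits stands infinitely often in the base `b` expansion of `y` -/
def All (b k : ℕ) (y : ℝ) : Prop := ∀ w : ℤ, 0 ≤ w → w < (b : ℤ) ^ k → {q : ℕ | word b k y q = w}.Infinite

lemma shares (b : ℕ) (hb : 2 ≤ b) (δ : ℝ) (hδ : 0 < δ) (hδ1 : δ ≤ 1) :
    ∃ C : ℝ, 0 < C ∧ ∀ α : ℝ, Irrational α → ∀ M : ℕ, 1 ≤ M → ∀ q0 : ℕ, ∃ q, q0 ≤ q ∧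
      ∀ A B : Finset ℕ, A ⊆ range M → B ⊆ range M →
      (M : ℝ) ^ (1 + δ) ≤ (A.card : ℝ) * B.card → ∀ x y : ℕ → ℝ, ∀ (K : ℕ) (v : ℤ),
      0 ≤ v → v < (b : ℤ) ^ K →
      |(((A ×ˢ B).filter (fun z : ℕ × ℕ =>
          word b K ((z.1 * z.2 : ℝ) * α + x z.1 + y z.2) q = v)).card : ℝ) -
        ((A.card : ℝ) * B.card) / (b : ℝ) ^ K| ≤ C * (M : ℝ) ^ (-(δ / 16)) * ((A.card : ℝ) * B.card) := by
  obtain ⟨C, hC, h⟩ := Pool.Agent.Run7.h566.BL.place b hb δ hδ hδ1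
  refine ⟨C, hC, fun α hα M hM q0 => ?_⟩
  obtain ⟨q, hq, h1⟩ := h α hα M hM q0
  refine ⟨q, hq, fun A B hA hB hcard x y K v hv0 hv1 => ?_⟩
  have hb0 : (0 : ℝ) < b := by positivity
  have hbK : (0 : ℝ) < (b : ℝ) ^ K := by positivity
  have hvR0 : (0 : ℝ) ≤ (v : ℝ) := by exact_mod_cast hv0
  have hvR1 : (v : ℝ) + 1 ≤ (b : ℝ) ^ K := by exact_mod_cast hv1
  have h2 := h1 A B hA hB hcard x y ((v : ℝ) / (b : ℝ) ^ K) (((v : ℝ) + 1) / (b : ℝ) ^ K)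
    (by positivity) (by gcongr; linarith) ((div_le_one hbK).2 hvR1)
  have e1 : ((v : ℝ) + 1) / (b : ℝ) ^ K - (v : ℝ) / (b : ℝ) ^ K = 1 / (b : ℝ) ^ K := by ring
  rw [e1, one_div_mul_eq_div] at h2
  have e2 : ((A ×ˢ B).filter (fun z : ℕ × ℕ =>
      word b K ((z.1 * z.2 : ℝ) * α + x z.1 + y z.2) q = v)) =
      ((A ×ˢ B).filter (fun z : ℕ × ℕ =>
          (v : ℝ) / (b : ℝ) ^ K ≤ Int.fract (((z.1 * z.2 : ℝ) * α + x z.1 + y z.2) * (b : ℝ) ^ q) ∧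
          Int.fract (((z.1 * z.2 : ℝ) * α + x z.1 + y z.2) * (b : ℝ) ^ q) < ((v : ℝ) + 1) / (b : ℝ) ^ K)) := by
    refine filter_congr fun z _ => ?_
    have e3 : word b K ((z.1 * z.2 : ℝ) * α + x z.1 + y z.2) q =
        Pool.Agent.R544.EM.word b K ((z.1 * z.2 : ℝ) * α + x z.1 + y z.2) q := rfl
    rw [e3, Pool.Agent.R544.EM.word_eq b hb, Int.floor_eq_iff, div_le_iff₀ hbK, lt_div_iff₀ hbK]
  rw [e2]
  exact h2

lemma words (b : ℕ) (hb : 2 ≤ b) (δ : ℝ) (hδ : 0 < δ) (hδ1 : δ ≤ 1) (k : ℕ) (hk : 1 ≤ k) :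
    ∃ c C : ℝ, 0 < c ∧ 0 < C ∧ ∀ α : ℝ, Irrational α → ∀ M : ℕ, 1 ≤ M →
      ∀ A B : Finset ℕ, A ⊆ range M → B ⊆ range M →
      (M : ℝ) ^ (1 + δ) ≤ (A.card : ℝ) * B.card → ∀ x y : ℕ → ℝ,
      (((A ×ˢ B).filter (fun z : ℕ × ℕ =>
        ¬ All b k ((z.1 * z.2 : ℝ) * α + x z.1 + y z.2))).card : ℝ) ≤
        C * (M : ℝ) ^ (-c) * ((A.card : ℝ) * B.card) := by
  obtain ⟨D, hD, h⟩ := shares b hb δ hδ hδ1
  obtain ⟨c, C, hc, hC, h1⟩ := Pool.Agent.Run7.h566.BL.all_words (ι := ℕ × ℕ) b hb k hk (δ / 16)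
    (by positivity)
  refine ⟨c, C * (1 + D), hc, by positivity, fun α hα M hM A B hA hB hcard x y => ?_⟩
  have hcon : ∀ y : ℝ, All b k y ↔ ∀ w : ℤ, 0 ≤ w → w < (b : ℤ) ^ k →
      {q : ℕ | Pool.Agent.R544.EM.word b k y q = w}.Infinite := fun y => Iff.rfl
  simp only [hcon]
  refine h1 M hM (A ×ˢ B) (fun z => (z.1 * z.2 : ℝ) * α + x z.1 + y z.2) ((A.card : ℝ) * B.card) D
    (by positivity) hD.le fun q0 => ?_
  obtain ⟨q, hq, h2⟩ := h α hα M hM q0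
  refine ⟨q, hq, fun K v hv0 hv1 => ?_⟩
  have h3 := h2 A B hA hB hcard x y K v hv0 hv1
  have h4 := (abs_le.1 h3).2
  have e : ((A.card : ℝ) * B.card) * (1 / (b : ℝ) ^ K + D * (M : ℝ) ^ (-(δ / 16))) =
      ((A.card : ℝ) * B.card) / (b : ℝ) ^ K + D * (M : ℝ) ^ (-(δ / 16)) * ((A.card : ℝ) * B.card) := by
    ring
  rw [e]
  have h5 : (((A ×ˢ B).filter (fun z : ℕ × ℕ => Pool.Agent.R544.EM.word b K
      ((z.1 * z.2 : ℝ) * α + x z.1 + y z.2) q = v)).card : ℝ) =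
      (((A ×ˢ B).filter (fun z : ℕ × ℕ => word b K
      ((z.1 * z.2 : ℝ) * α + x z.1 + y z.2) q = v)).card : ℝ) := rfl
  rw [h5]
  linarith

/-- Let `b ≥ 2` and `0 < δ ≤ 1`.

(1) There is a `C` such that for every irrational `α`, all `M ≥ 1` and `q₀` there is a place `q ≥ q₀`,
depending only on `b, α, M, q₀`, such that for ALL sets `A, B` of integers below `M` with
`|A| |B| ≥ M ^ (1 + δ)` and ALL real functions `x, y`, every word of digits of every length `K` stands at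
the places `q + 1, …, q + K` of `m n α + x_m + y_n` for `b ^ (-K) |A| |B| + O(C M ^ (-δ / 16) |A| |B|)` of
the pairs `(m, n)` in `A × B`.

(2) For every `k ≥ 1` there are `c, C > 0` such that for all such `α, M, A, B, x, y` and all but at most
`C M ^ (-c) |A| |B|` of the pairs `(m, n)` in `A × B`, every word of `k` digits stands infinitely often
in the base `b` expansion of `m n α + x_m + y_n`.

(3) For every `k ≥ 1` there are `c, C > 0` such that for all such `M, A, B`, every irrational `α` and all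
real `β, γ`, for all but at most `C M ^ (-c) |A| |B|` of the pairs `(m, n)` in `A × B`, every word of `k`
digits stands infinitely often in the base `b` expansion of `(m + n) ^ 2 α + (m + n) β + γ`; in
particular of `(m + n) ^ 2 √2`. -/
theorem result (b : ℕ) (hb : 2 ≤ b) (δ : ℝ) (hδ : 0 < δ) (hδ1 : δ ≤ 1) :
    (∃ C : ℝ, 0 < C ∧ ∀ α : ℝ, Irrational α → ∀ M : ℕ, 1 ≤ M → ∀ q0 : ℕ, ∃ q, q0 ≤ q ∧
      ∀ A B : Finset ℕ, A ⊆ range M → B ⊆ range M →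
      (M : ℝ) ^ (1 + δ) ≤ (A.card : ℝ) * B.card → ∀ x y : ℕ → ℝ, ∀ (K : ℕ) (v : ℤ),
      0 ≤ v → v < (b : ℤ) ^ K →
      |(((A ×ˢ B).filter (fun z : ℕ × ℕ =>
          word b K ((z.1 * z.2 : ℝ) * α + x z.1 + y z.2) q = v)).card : ℝ) -
        ((A.card : ℝ) * B.card) / (b : ℝ) ^ K| ≤
          C * (M : ℝ) ^ (-(δ / 16)) * ((A.card : ℝ) * B.card)) ∧
    (∀ k : ℕ, 1 ≤ k → ∃ c C : ℝ, 0 < c ∧ 0 < C ∧ ∀ α : ℝ, Irrational α → ∀ M : ℕ, 1 ≤ M →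
      ∀ A B : Finset ℕ, A ⊆ range M → B ⊆ range M →
      (M : ℝ) ^ (1 + δ) ≤ (A.card : ℝ) * B.card → ∀ x y : ℕ → ℝ,
      (((A ×ˢ B).filter (fun z : ℕ × ℕ =>
        ¬ All b k ((z.1 * z.2 : ℝ) * α + x z.1 + y z.2))).card : ℝ) ≤
        C * (M : ℝ) ^ (-c) * ((A.card : ℝ) * B.card)) ∧
    (∀ k : ℕ, 1 ≤ k → ∃ c C : ℝ, 0 < c ∧ 0 < C ∧ ∀ α : ℝ, Irrational α → ∀ M : ℕ, 1 ≤ M →
      ∀ A B : Finset ℕ, A ⊆ range M → B ⊆ range M →
      (M : ℝ) ^ (1 + δ) ≤ (A.card : ℝ) * B.card → ∀ β γ : ℝ,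
      (((A ×ˢ B).filter (fun z : ℕ × ℕ =>
        ¬ All b k (((z.1 : ℝ) + z.2) ^ 2 * α + ((z.1 : ℝ) + z.2) * β + γ))).card : ℝ) ≤
        C * (M : ℝ) ^ (-c) * ((A.card : ℝ) * B.card)) := by
  refine ⟨shares b hb δ hδ hδ1, words b hb δ hδ hδ1, fun k hk => ?_⟩
  obtain ⟨c, C, hc, hC, h⟩ := words b hb δ hδ hδ1 k hk
  refine ⟨c, C, hc, hC, fun α hα M hM A B hA hB hcard β γ => ?_⟩
  have h2 : Irrational (2 * α) := by
    have := hα.natCast_mul (m := 2) two_ne_zero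
    simpa using this
  have h1 := h (2 * α) h2 M hM A B hA hB hcard (fun m => (m : ℝ) ^ 2 * α + m * β + γ)
    (fun n => (n : ℝ) ^ 2 * α + n * β)
  refine le_trans (le_of_eq ?_) h1
  congr 2
  refine filter_congr fun z _ => ?_
  have e : ((z.1 : ℝ) + z.2) ^ 2 * α + ((z.1 : ℝ) + z.2) * β + γ =
      (z.1 * z.2 : ℝ) * (2 * α) + ((z.1 : ℝ) ^ 2 * α + z.1 * β + γ) + ((z.2 : ℝ) ^ 2 * α + z.2 * β) := by
    ring
  rw [e]

end Pool.Agent.Results.MP_175f55_nt.BilinearFamilies
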