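import Mathlib
import Pool.Agent.Run7.h566.ML.Place
import Pool.Agent.Run7.h566.BL.Words

/-!
The digits of the numbers `a_0 ⋯ a_n α + x_0(a) + ⋯ + x_n(a)`, where the `x_j` are arbitrary real
functions of the tuple `a` which do not depend on `a_j`.
-/

set_option autoImplicit false

open Finset
open scoped Classical

namespace Pool.Agent.Results.MP_175f55_nt.MultilinearFamilies

/-- the digits of `y` in base `b` at the places `q + 1, …, q + k`, read as an integer below `b ^ k` -/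
noncomputable def word (b k : ℕ) (y : ℝ) (q : ℕ) : ℤ := ⌊y * (b : ℝ) ^ (q + k)⌋ % (b : ℤ) ^ k

/-- every word of `k` digits stands infinitely often in the base `b` expansion of `y` -/
def All (b k : ℕ) (y : ℝ) : Prop := ∀ w : ℤ, 0 ≤ w → w < (b : ℤ) ^ k → {q : ℕ | word b k y q = w}.Infinite

/-- the function `F` of `d`-tuples does not depend on the coordinate `j` -/
def Free {d : ℕ} {X : Type} (j : Fin d) (F : (Fin d → ℕ) → X) : Prop :=
  ∀ a a' : Fin d → ℕ, (∀ i, i ≠ j → a i = a' i) → F a = F a'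

/-- the number `a_0 ⋯ a_(d-1) α + x_0(a) + ⋯ + x_(d-1)(a)` -/
noncomputable def value {d : ℕ} (α : ℝ) (x : Fin d → (Fin d → ℕ) → ℝ) (a : Fin d → ℕ) : ℝ :=
  (∏ i, (a i : ℝ)) * α + ∑ j, x j a

/-- the tuples of integers below `M` which satisfy all the relations `Ω_j` -/
noncomputable def tuples {d : ℕ} (M : ℕ) (Ω : Fin d → (Fin d → ℕ) → Prop) : Finset (Fin d → ℕ) :=
  (Fintype.piFinset fun _ => range M).filter fun a => ∀ j, Ω j a

lemma tuples_true {d : ℕ} (M : ℕ) (Ω : Fin d → (Fin d → ℕ) → Prop) (h : ∀ j a, Ω j a) :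
    tuples M Ω = Fintype.piFinset fun _ => range M := by
  unfold tuples
  rw [filter_true_of_mem]
  exact fun a _ j => h j a

lemma shares (b : ℕ) (hb : 2 ≤ b) (n : ℕ) :
    ∃ C : ℝ, 0 < C ∧ ∀ α : ℝ, Irrational α → ∀ M : ℕ, 1 ≤ M → ∀ q0 : ℕ, ∃ q, q0 ≤ q ∧
      ∀ x : Fin (n + 1) → (Fin (n + 1) → ℕ) → ℝ, (∀ j, Free j (x j)) →
      ∀ Ω : Fin (n + 1) → (Fin (n + 1) → ℕ) → Prop, (∀ j, Free j (Ω j)) →
      ∀ (K : ℕ) (v : ℤ), 0 ≤ v → v < (b : ℤ) ^ K →
      |(((tuples M Ω).filter fun a => word b K (value α x a) q = v).card : ℝ) -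
        (tuples M Ω).card / (b : ℝ) ^ K| ≤ C * (M : ℝ) ^ ((n : ℝ) + 1 - 1 / 2 ^ (n + 4)) := by
  obtain ⟨C, hC, h⟩ := Pool.Agent.Run7.h566.ML.place b hb n
  refine ⟨C, hC, fun α hα M hM q0 => ?_⟩
  have hMR : (1 : ℝ) ≤ M := by exact_mod_cast hM
  have hM0 : (0 : ℝ) < M := by linarith
  obtain ⟨q, hq, h1⟩ := h α hα M hM q0
  refine ⟨q, hq, fun x hx Ω hΩ K v hv0 hv1 => ?_⟩
  have hb0 : (0 : ℝ) < b := by positivity
  have hbK : (0 : ℝ) < (b : ℝ) ^ K := by positivity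
  have hvR0 : (0 : ℝ) ≤ (v : ℝ) := by exact_mod_cast hv0
  have hvR1 : (v : ℝ) + 1 ≤ (b : ℝ) ^ K := by exact_mod_cast hv1
  have h2 := h1 x hx Ω hΩ ((v : ℝ) / (b : ℝ) ^ K) (((v : ℝ) + 1) / (b : ℝ) ^ K)
    (by positivity) (by gcongr; linarith) ((div_le_one hbK).2 hvR1)
  have e1 : ((v : ℝ) + 1) / (b : ℝ) ^ K - (v : ℝ) / (b : ℝ) ^ K = 1 / (b : ℝ) ^ K := by ring
  rw [e1, one_div_mul_eq_div] at h2
  have e0 : tuples M Ω = Pool.Agent.Run7.h566.ML.pts M Ω := rfl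
  have e2 : (tuples M Ω).filter (fun a => word b K (value α x a) q = v) =
      (Pool.Agent.Run7.h566.ML.pts M Ω).filter (fun a =>
          (v : ℝ) / (b : ℝ) ^ K ≤ Int.fract (Pool.Agent.Run7.h566.ML.val α x a * (b : ℝ) ^ q) ∧
          Int.fract (Pool.Agent.Run7.h566.ML.val α x a * (b : ℝ) ^ q) <
            ((v : ℝ) + 1) / (b : ℝ) ^ K) := by
    rw [e0]
    refine filter_congr fun a _ => ?_
    have e3 : word b K (value α x a) q =
        Pool.Agent.R544.EM.word b K (Pool.Agent.Run7.h566.ML.val α x a) q := rfl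
    rw [e3, Pool.Agent.R544.EM.word_eq b hb, Int.floor_eq_iff, div_le_iff₀ hbK, lt_div_iff₀ hbK]
  rw [e2, e0]
  refine h2.trans (le_of_eq ?_)
  rw [mul_assoc, ← Real.rpow_natCast (M : ℝ) (n + 1), ← Real.rpow_add hM0]
  congr 2
  push_cast
  ring

lemma words (b : ℕ) (hb : 2 ≤ b) (n : ℕ) (k : ℕ) (hk : 1 ≤ k) :
    ∃ c C : ℝ, 0 < c ∧ 0 < C ∧ ∀ α : ℝ, Irrational α → ∀ M : ℕ, 1 ≤ M →
      ∀ x : Fin (n + 1) → (Fin (n + 1) → ℕ) → ℝ, (∀ j, Free j (x j)) →
      (((Fintype.piFinset fun _ : Fin (n + 1) => range M).filter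
        fun a => ¬ All b k (value α x a)).card : ℝ) ≤ C * (M : ℝ) ^ ((n : ℝ) + 1 - c) := by
  obtain ⟨D, hD, h⟩ := shares b hb n
  set κ : ℝ := 1 / 2 ^ (n + 4) with hκ
  obtain ⟨c, C, hc, hC, h1⟩ := Pool.Agent.Run7.h566.BL.all_words (ι := Fin (n + 1) → ℕ) b hb k hk κ
    (by positivity)
  refine ⟨c, C * (1 + D), hc, by positivity, fun α hα M hM x hx => ?_⟩
  have hMR : (1 : ℝ) ≤ M := by exact_mod_cast hM
  have hM0 : (0 : ℝ) < M := by linarith
  have hcon : ∀ y : ℝ, All b k y ↔ ∀ w : ℤ, 0 ≤ w → w < (b : ℤ) ^ k →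
      {q : ℕ | Pool.Agent.R544.EM.word b k y q = w}.Infinite := fun y => Iff.rfl
  simp only [hcon]
  have e4 : C * (1 + D) * (M : ℝ) ^ ((n : ℝ) + 1 - c) =
      C * (1 + D) * (M : ℝ) ^ (-c) * (M : ℝ) ^ (n + 1) := by
    rw [mul_assoc _ ((M : ℝ) ^ (-c)), ← Real.rpow_natCast (M : ℝ) (n + 1), ← Real.rpow_add hM0]
    congr 2
    push_cast
    ring
  rw [e4]
  refine h1 M hM _ (fun a => value α x a) ((M : ℝ) ^ (n + 1)) D (by positivity) hD.le fun q0 => ?_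
  obtain ⟨q, hq, h2⟩ := h α hα M hM q0
  refine ⟨q, hq, fun K v hv0 hv1 => ?_⟩
  have h3 := h2 x hx (fun _ _ => True) (fun _ _ _ _ => rfl) K v hv0 hv1
  have h4 := (abs_le.1 h3).2
  have e5 : tuples M (fun (_ : Fin (n + 1)) (_ : Fin (n + 1) → ℕ) => True) =
      Fintype.piFinset fun _ : Fin (n + 1) => range M := tuples_true M _ fun _ _ => trivial
  have e6 : ((Fintype.piFinset fun _ : Fin (n + 1) => range M).card : ℝ) = (M : ℝ) ^ (n + 1) := by
    rw [Fintype.card_piFinset]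
    simp
  rw [e5, e6] at h4
  have e7 : (M : ℝ) ^ (n + 1) * (1 / (b : ℝ) ^ K + D * (M : ℝ) ^ (-κ)) =
      (M : ℝ) ^ (n + 1) / (b : ℝ) ^ K + D * (M : ℝ) ^ ((n : ℝ) + 1 - κ) := by
    have e8 : (M : ℝ) ^ ((n : ℝ) + 1 - κ) = (M : ℝ) ^ (n + 1) * (M : ℝ) ^ (-κ) := by
      rw [← Real.rpow_natCast (M : ℝ) (n + 1), ← Real.rpow_add hM0]
      congr 1
      push_cast
      ring
    rw [e8]
    ring
  rw [e7]
  have h5 : (((Fintype.piFinset fun _ : Fin (n + 1) => range M).filter fun a =>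
      Pool.Agent.R544.EM.word b K (value α x a) q = v).card : ℝ) =
      (((Fintype.piFinset fun _ : Fin (n + 1) => range M).filter fun a =>
      word b K (value α x a) q = v).card : ℝ) := rfl
  rw [h5]
  linarith

/-- Let `b ≥ 2`, `n ≥ 0`. The tuples `a = (a_0, …, a_n)` consist of nonnegative integers; functions
`x_j` and relations `Ω_j` on tuples are arbitrary, but must not depend on `a_j` (`j = 0, …, n`).

(1) There is a `C` such that for every irrational `α`, all `M ≥ 1` and `q₀` there is a place `q ≥ q₀`,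
depending only on `b, n, α, M, q₀`, such that for ALL `x_j` and ALL `Ω_j`, every word of every number
`K` of digits stands at the places `q + 1, …, q + K` of `a_0 ⋯ a_n α + x_0(a) + ⋯ + x_n(a)` for
`b ^ (-K) R + O(C M ^ (n + 1 - 2 ^ (-n-4)))` of the tuples `a` of integers below `M` which satisfy all
the relations; here `R` is the number of these tuples.

(2) For every `k ≥ 1` there are `c, C > 0` such that for all such `α, M` and `x_j` and all but at most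
`C M ^ (n + 1 - c)` of the tuples `a` of integers below `M`, every word of `k` digits stands infinitely
often in the base `b` expansion of `a_0 ⋯ a_n α + x_0(a) + ⋯ + x_n(a)`.

(3) Example: for every `k ≥ 1` there are `c, C > 0` such that for all such `α, M` and all real functions
`x, y, z` of two variables, for all but at most `C M ^ (3 - c)` of the triples `a` of integers below
`M`, every word of `k` digits stands infinitely often in
`(a_0 + a_1 + a_2) ^ 3 α + x(a_0, a_1) + y(a_1, a_2) + z(a_2, a_0)`. -/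
theorem result (b : ℕ) (hb : 2 ≤ b) (n : ℕ) :
    (∃ C : ℝ, 0 < C ∧ ∀ α : ℝ, Irrational α → ∀ M : ℕ, 1 ≤ M → ∀ q0 : ℕ, ∃ q, q0 ≤ q ∧
      ∀ x : Fin (n + 1) → (Fin (n + 1) → ℕ) → ℝ, (∀ j, Free j (x j)) →
      ∀ Ω : Fin (n + 1) → (Fin (n + 1) → ℕ) → Prop, (∀ j, Free j (Ω j)) →
      ∀ (K : ℕ) (v : ℤ), 0 ≤ v → v < (b : ℤ) ^ K →
      |(((tuples M Ω).filter fun a => word b K (value α x a) q = v).card : ℝ) -
        (tuples M Ω).card / (b : ℝ) ^ K| ≤ C * (M : ℝ) ^ ((n : ℝ) + 1 - 1 / 2 ^ (n + 4))) ∧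
    (∀ k : ℕ, 1 ≤ k → ∃ c C : ℝ, 0 < c ∧ 0 < C ∧ ∀ α : ℝ, Irrational α → ∀ M : ℕ, 1 ≤ M →
      ∀ x : Fin (n + 1) → (Fin (n + 1) → ℕ) → ℝ, (∀ j, Free j (x j)) →
      (((Fintype.piFinset fun _ : Fin (n + 1) => range M).filter
        fun a => ¬ All b k (value α x a)).card : ℝ) ≤ C * (M : ℝ) ^ ((n : ℝ) + 1 - c)) ∧
    (∀ k : ℕ, 1 ≤ k → ∃ c C : ℝ, 0 < c ∧ 0 < C ∧ ∀ α : ℝ, Irrational α → ∀ M : ℕ, 1 ≤ M →
      ∀ x y z : ℕ → ℕ → ℝ,
      (((Fintype.piFinset fun _ : Fin 3 => range M).filter fun a =>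
        ¬ All b k (((a 0 : ℝ) + a 1 + a 2) ^ 3 * α + x (a 0) (a 1) + y (a 1) (a 2) +
          z (a 2) (a 0))).card : ℝ) ≤ C * (M : ℝ) ^ (3 - c)) := by
  refine ⟨shares b hb n, fun k hk => words b hb n k hk, fun k hk => ?_⟩
  obtain ⟨c, C, hc, hC, h⟩ := words b hb 2 k hk
  refine ⟨c, C, hc, hC, fun α hα M hM x y z => ?_⟩
  have h6 : Irrational (6 * α) := by
    have := hα.natCast_mul (m := 6) (by norm_num)
    simpa using this
  set X : Fin 3 → (Fin 3 → ℕ) → ℝ := fun j a =>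
    if j = 0 then y (a 1) (a 2) + ((a 1 : ℝ) ^ 3 + 3 * (a 1 : ℝ) ^ 2 * a 2 + 3 * a 1 * (a 2 : ℝ) ^ 2) * α
    else if j = 1 then z (a 2) (a 0) +
      ((a 2 : ℝ) ^ 3 + 3 * (a 2 : ℝ) ^ 2 * a 0 + 3 * a 2 * (a 0 : ℝ) ^ 2) * α
    else x (a 0) (a 1) + ((a 0 : ℝ) ^ 3 + 3 * (a 0 : ℝ) ^ 2 * a 1 + 3 * a 0 * (a 1 : ℝ) ^ 2) * α with hX
  have hfree : ∀ j, Free j (X j) := by
    intro j a a' haa
    fin_cases j
    · have h1 := haa 1 (by decide)
      have h2 := haa 2 (by decide)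
      simp [hX, h1, h2]
    · have h1 := haa 0 (by decide)
      have h2 := haa 2 (by decide)
      simp [hX, h1, h2]
    · have h1 := haa 0 (by decide)
      have h2 := haa 1 (by decide)
      simp [hX, h1, h2]
  have h1 := h (6 * α) h6 M hM X hfree
  have e1 : (((2 : ℕ) : ℝ) + 1 - c) = 3 - c := by push_cast; ring
  rw [e1] at h1
  refine le_trans (le_of_eq ?_) h1
  congr 2
  refine filter_congr fun a _ => ?_
  have e2 : value (6 * α) X a = ((a 0 : ℝ) + a 1 + a 2) ^ 3 * α + x (a 0) (a 1) + y (a 1) (a 2) +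
      z (a 2) (a 0) := by
    unfold value
    rw [Fin.prod_univ_three, Fin.sum_univ_three]
    simp only [hX, if_true, one_ne_zero, if_false, Fin.isValue,
      show (2 : Fin 3) ≠ 0 by decide, show (2 : Fin 3) ≠ 1 by decide]
    ring
  rw [e2]

end Pool.Agent.Results.MP_175f55_nt.MultilinearFamilies
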