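import Pool.Agent.Run7.h672.AE.Q

/-!
# Every word occurs infinitely often in `(ρ + ξ) √2` for almost every `ξ` with digits in an arbitrarily sparse set of places

Let `A` be any set of places which contains arbitrarily long runs of consecutive numbers; it may be as sparse as one likes. Choose the
decimal digits of a number `ξ` at the places of `A` at random, independently, each of them `0` or `1` (or with any two probable
values), and let the other digits be `0` (or any fixed digits). Let `ρ` be a real number, for instance `ρ = 1`. Then almost surely every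
word of digits occurs infinitely often in the decimal expansion of `(ρ + ξ) √2`, and of `(ρ + ξ) α + γ` for all real algebraic
numbers `α`, `γ`, `α` irrational. So if the digits of the factor `1` are changed in a very thin set of places only, every word
occurs infinitely often in the product. The question is about the factor `1` itself.

Method: for a run `[n - k, n)` of `A` the conditional distribution of `10 ^ n (ρ + ξ) α` modulo one, given the digits of `ξ` at the other
places, is nearly uniform, because the numbers `h α` have infinitely many digits different from `0` and `9`.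

The definitions `num` and `Two` are in `Pool.Agent.Run7.h672.AE.B` and `Pool.Agent.Run7.h672.AE.C`.
-/

set_option autoImplicit false

namespace Pool.Agent.Results.MP_175f55_nt.SparsePerturbations

open MeasureTheory ProbabilityTheory
open Pool.Agent.Run7.h672.AE

/-- the word `w` stands in the expansion of `y` in base `b` right after the `n`-th digit after the point -/
def Stands (b L : ℕ) (w : Fin L → Fin b) (y : ℝ) (n : ℕ) : Prop :=
  ∀ s : Fin L, ⌊y * (b : ℝ) ^ (n + s + 1)⌋ % (b : ℤ) = ((w s : ℕ) : ℤ)

/-- Let `X_0, X_1, …` be independent random digits in base `b ≥ 2` on a probability space, `η > 0`, and suppose that for every `L`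
there are `L` consecutive places `j` at which two values of `X_j` have probabilities of at least `η`. Let
`ξ = num b X = ∑ X_j b ^ (- j - 1)` and let `ρ` be a real number. Almost surely for all real algebraic numbers `α`, `γ`, `α`
irrational (for instance `α = √2`, `γ = 0`), every word occurs infinitely often in the expansion of `(ρ + ξ) α + γ` in base `b`. -/
theorem result (b : ℕ) (hb : 2 ≤ b) (Ω : Type) [MeasurableSpace Ω] (P : Measure Ω) [IsProbabilityMeasure P] (X : ℕ → Ω → ℕ)
    (hX : ∀ j, Measurable (X j)) (hI : iIndepFun X P) (hlt : ∀ j ω, X j ω < b) (η : ℝ) (hη : 0 < η)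
    (hrun : ∀ L : ℕ, ∃ a, ∀ j, a ≤ j → j < a + L → Two P X η j) (ρ : ℝ) :
    ∀ᵐ ω ∂P, ∀ α γ : ℝ, IsAlgebraic ℚ α → IsAlgebraic ℚ γ → Irrational α →
      ∀ (L : ℕ) (w : Fin L → Fin b), {n : ℕ | Stands b L w ((ρ + num b X ω) * α + γ) n}.Infinite := by
  have hb0 : (0 : ℝ) < b := by exact_mod_cast (by omega : 0 < b)
  have hcount : {x : ℝ | IsAlgebraic ℚ x}.Countable := Algebraic.countable ℚ ℝ
  have : Countable {x : ℝ // IsAlgebraic ℚ x} := hcount.to_subtype
  have h1 : ∀ᵐ ω ∂P, ∀ p : {x : ℝ // IsAlgebraic ℚ x} × {x : ℝ // IsAlgebraic ℚ x}, Irrational (p.1 : ℝ) →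
      ∀ s t : ℝ, 0 ≤ s → s < t → t ≤ 1 →
      {n : ℕ | s ≤ Int.fract ((b : ℝ) ^ n * (p.1 * num b X ω) + (b : ℝ) ^ n * (ρ * p.1 + p.2)) ∧
        Int.fract ((b : ℝ) ^ n * (p.1 * num b X ω) + (b : ℝ) ^ n * (ρ * p.1 + p.2)) < t}.Infinite := by
    rw [ae_all_iff]
    intro p
    by_cases hp : Irrational (p.1 : ℝ)
    · filter_upwards [products hb hX hI hlt hη hrun (p.1 : ℝ) hp (fun n => (b : ℝ) ^ n * (ρ * p.1 + p.2))] with ω hω _
      exact hω
    · exact ae_of_all _ fun ω h => absurd h hp
  filter_upwards [h1] with ω hω α γ hα hγ hirr L w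
  obtain ⟨c, hc, hst⟩ := stands_of hb L w
  have hp : (0 : ℝ) < (b : ℝ) ^ L := by positivity
  have hc1 : ((c : ℝ) + 1) ≤ (b : ℝ) ^ L := by exact_mod_cast hc
  refine (hω (⟨α, hα⟩, ⟨γ, hγ⟩) hirr ((c : ℝ) / (b : ℝ) ^ L) (((c : ℝ) + 1) / (b : ℝ) ^ L) (by positivity)
    (by rw [div_lt_div_iff_of_pos_right hp]; linarith) (by rw [div_le_one hp]; exact hc1)).mono fun n hn => ?_
  have e1 : (b : ℝ) ^ n * (α * num b X ω) + (b : ℝ) ^ n * (ρ * α + γ) = (b : ℝ) ^ n * ((ρ + num b X ω) * α + γ) := by ring
  simp only [e1, Set.mem_ofPred_eq] at hn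
  exact hst _ n hn.1 hn.2

end Pool.Agent.Results.MP_175f55_nt.SparsePerturbations
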