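import Pool.Agent.Run7.h274.SqrtGen

/-!
# Decimal words of length up to `log N / (2 log 10)` in the multiples of `√D / p ^ j`

Let `p ≠ 2, 5` be a prime, `p ^ j > 36 · 10 ^ l`, `x = √D / p ^ j` (for instance `D = 2`, `p = 19`, `l = 1`,
`j = 2`, `x = √2 / 361`). A place `k` is good if `10 ^ k x` has no good approximation with a denominator
less than `4 · 10 ^ l`. At a good place the blocks of length `l` of the multiples `m x`, `m ≤ M`, have the
right frequencies up to a constant factor.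

The number of good places is at least a constant times the number `C` of digit changes of `R x` divided
by `log R`, where `R` is the least common multiple of the numbers up to `4 · 10 ^ l`. As `p ^ j` does not
divide `9 R`, and `p ^ (2 j) (9 R x) ^ 2 = 81 D R ^ 2`, long windows without sums of two places of digit
changes are impossible, and `C ^ 2 log (p ^ j D)` is at least a constant times `N`. All constants are
explicit.
-/

set_option autoImplicit false

namespace Pool.Agent.Results.MP_175f55_nt.WordsInMultiples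

open Finset

/-- the word of length `l` with value `W` (its digits are the decimal digits of `W < 10 ^ l`, with
leading zeros) stands in the decimal expansion of `y` right behind the `k`-th digit after the point,
i.e. the fractional part of `10 ^ k y` lies in `[W / 10 ^ l, (W + 1) / 10 ^ l)` -/
def Stands (l W : ℕ) (y : ℝ) (k : ℕ) : Prop := ⌊(10 : ℝ) ^ (k + l) * y⌋ % (10 : ℤ) ^ l = (W : ℤ)

noncomputable instance (l W : ℕ) (y : ℝ) : DecidablePred (Stands l W y) := fun _ => Int.instDecidableEq _ _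

/-- the number of `k < N` such that the word of length `l` with value `W` stands in the decimal
expansion of `y` right behind the `k`-th digit -/
noncomputable def occ (l W : ℕ) (y : ℝ) (N : ℕ) : ℕ := #{k ∈ range N | Stands l W y k}

/-- the conditions on the parameters, with `L = j log p + log D` -/
def Admissible (l p j D N M : ℕ) : Prop :=
  p.Prime ∧ p ≠ 2 ∧ p ≠ 5 ∧ ¬ p ^ 2 ∣ D ∧ 36 * 10 ^ l < p ^ j ∧
    20000 * ((100 : ℝ) ^ l + (j * Real.log p + Real.log D)) ≤ N ∧ 44 * 10 ^ l ≤ M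

theorem gd_bound {l p j D N M : ℕ} (hl : 1 ≤ l) (h : Admissible l p j D N M) :
    √((N : ℝ) / (j * Real.log p + Real.log D)) ≤
      400 * 10 ^ l * (Pool.Agent.Run7.h274.WM.gd 10 (10 ^ l) M (√D / p ^ j) N : ℝ) := by
  obtain ⟨hp, h2, h5, hD, hj, hN, hM⟩ := h
  have hp10 : ¬ p ∣ 10 := by
    intro hd
    have h3 : p ∣ 2 * 5 := hd
    rcases (Nat.Prime.dvd_mul hp).1 h3 with h4 | h4
    · exact h2 ((Nat.prime_dvd_prime_iff_eq hp Nat.prime_two).1 h4)
    · exact h5 ((Nat.prime_dvd_prime_iff_eq hp Nat.prime_five).1 h4)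
  have e : (((10 : ℕ)) : ℝ) ^ (2 * l) = 100 ^ l := by
    rw [pow_mul]; norm_num
  have h1 := Pool.Agent.Run7.h274.WM.sqrt_gd (b := 10) (l := l) (p := p) (j := j) (D := D) (N := N)
    (M := M) (by norm_num) hl hp hp10 hD (by norm_num; exact hj) (by rw [e]; exact hN)
    (by norm_num; exact hM)
  simpa using h1

/-- Let `p ≠ 2, 5` be a prime, `p ^ 2 ∤ D`, `l ≥ 1`, `p ^ j > 36 · 10 ^ l`, `M ≥ 44 · 10 ^ l`,
`L = j log p + log D` and `N ≥ 20000 (100 ^ l + L)`.

(1) There is a nonempty set `S` of at least `√(N / L) / (400 · 10 ^ l)` places `k < N` such that for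
every decimal word `W` of length `l` and all `k ∈ S` the number of `m ≤ M` for which `W` stands in
`m √D / p ^ j` right behind the `k`-th digit is between `M / (8 · 10 ^ l)` and `4 M / 10 ^ l`.

(2) Every word `W` of length `l` occurs at least `√(N / L) / (6400 · 100 ^ l)` times at the first `N`
places of `m √D / p ^ j` for at least `M / (16 · 10 ^ l)` of the `m ≤ M`.

(3) For `l, n ≥ 1` and the same with `l n` in place of `l`: for all but at most
`8 · 10 ^ l (1 - 10 ^ (-l)) ^ n M` of the `m ≤ M` every word of length `l` occurs at least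
`√(N / L) / (800 l n 10 ^ (l n)) - l n` times at the first `N` places of `m √D / p ^ j`.

(4) For all `M ≥ 440` and `N ≥ 2200000` and every digit `d = 0, …, 9`: for at least `M / 160` of the
`m ≤ M` the digit `d` occurs at least `√N / 1700000` times, and at least once, among the first `N`
decimals of `m √2 / 361`. -/
theorem result :
    (∀ l p j D N M : ℕ, 1 ≤ l → Admissible l p j D N M →
      ∃ S : Finset ℕ, S.Nonempty ∧ S ⊆ range N ∧
        √((N : ℝ) / (j * Real.log p + Real.log D)) ≤ 400 * 10 ^ l * (S.card : ℝ) ∧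
        ∀ k ∈ S, ∀ W < 10 ^ l,
          M ≤ 8 * 10 ^ l * ((Icc 1 M).filter (fun m : ℕ => Stands l W (m * (√D / p ^ j)) k)).card ∧
          10 ^ l * ((Icc 1 M).filter (fun m : ℕ => Stands l W (m * (√D / p ^ j)) k)).card ≤ 4 * M) ∧
    (∀ l p j D N M : ℕ, 1 ≤ l → Admissible l p j D N M →
      ∀ W < 10 ^ l, M ≤ 16 * 10 ^ l * ((Icc 1 M).filter (fun m : ℕ =>
        √((N : ℝ) / (j * Real.log p + Real.log D)) ≤
          6400 * 100 ^ l * (occ l W (m * (√D / p ^ j)) N : ℝ))).card) ∧
    (∀ l n p j D N M : ℕ, 1 ≤ l → 1 ≤ n → Admissible (l * n) p j D N M →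
      (10 ^ l) ^ n * ((Icc 1 M).filter (fun m : ℕ => ∃ W < 10 ^ l,
        800 * (l * n) * 10 ^ (l * n) * ((occ l W (m * (√D / p ^ j)) N : ℝ) + l * n) <
          √((N : ℝ) / (j * Real.log p + Real.log D)))).card ≤ 8 * 10 ^ l * (10 ^ l - 1) ^ n * M) ∧
    (∀ N M : ℕ, 440 ≤ M → 2200000 ≤ N → ∀ d : ℕ, d < 10 →
      M ≤ 160 * ((Icc 1 M).filter (fun m : ℕ =>
        √(N : ℝ) ≤ 1700000 * (#{k ∈ range N | ⌊(10 : ℝ) ^ (k + 1) * (m * (√2 / 361))⌋ % 10 = (d : ℤ)} : ℝ) ∧
        1 ≤ #{k ∈ range N | ⌊(10 : ℝ) ^ (k + 1) * (m * (√2 / 361))⌋ % 10 = (d : ℤ)})).card) := by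
  classical
  have hocc : ∀ (l W : ℕ) (y : ℝ) (N : ℕ),
      Pool.Agent.Run7.h274.WM.occ 10 l W y N = occ l W y N := by
    intro l W y N
    unfold Pool.Agent.Run7.h274.WM.occ occ Stands
    simp only [Nat.cast_ofNat]
  have hpos : ∀ l p j D N M : ℕ, 1 ≤ l → Admissible l p j D N M →
      0 < √((N : ℝ) / (j * Real.log p + Real.log D)) := by
    intro l p j D N M hl h
    obtain ⟨hp, h2, h5, hD, hj, hN, hM⟩ := h
    have hD1 : (1 : ℝ) ≤ D := by
      have : D ≠ 0 := by
        rintro rfl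
        exact hD (dvd_zero _)
      exact_mod_cast Nat.one_le_iff_ne_zero.2 this
    have hj0 : j ≠ 0 := by
      rintro rfl
      have : 1 ≤ 10 ^ l := Nat.one_le_pow _ _ (by norm_num)
      rw [pow_zero] at hj
      omega
    have hj1 : (1 : ℝ) ≤ j := by exact_mod_cast Nat.one_le_iff_ne_zero.2 hj0
    have hp2 : (2 : ℝ) ≤ p := by exact_mod_cast hp.two_le
    have hlp : 0 < Real.log p := Real.log_pos (by linarith)
    have hlD : 0 ≤ Real.log D := Real.log_nonneg hD1
    have hL : 0 < j * Real.log p + Real.log D := by positivity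
    have h100 : (0 : ℝ) < 100 ^ l := by positivity
    have hN0 : (0 : ℝ) < N := by nlinarith
    exact Real.sqrt_pos.2 (by positivity)
  have part2 : ∀ l p j D N M : ℕ, 1 ≤ l → Admissible l p j D N M →
      ∀ W < 10 ^ l, M ≤ 16 * 10 ^ l * ((Icc 1 M).filter (fun m : ℕ =>
        √((N : ℝ) / (j * Real.log p + Real.log D)) ≤
          6400 * 100 ^ l * (occ l W (m * (√D / p ^ j)) N : ℝ))).card := by
    intro l p j D N M hl h W hW
    have h1 := gd_bound hl h
    have hM := h.2.2.2.2.2.2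
    have h2 := Pool.Agent.Run7.h274.WM.core_gd (b := 10) (by norm_num) (l := l) (M := M) (by omega)
      (√D / p ^ j) N W hW
    refine h2.trans (Nat.mul_le_mul_left _ (card_le_card fun m hm => ?_))
    rw [mem_filter] at hm ⊢
    refine ⟨hm.1, ?_⟩
    rw [hocc] at hm
    have h3 : (Pool.Agent.Run7.h274.WM.gd 10 (10 ^ l) M (√D / p ^ j) N : ℝ) ≤
        16 * 10 ^ l * (occ l W (m * (√D / p ^ j)) N : ℝ) := by exact_mod_cast hm.2
    have e4 : (100 : ℝ) ^ l = 10 ^ l * 10 ^ l := by rw [← mul_pow]; norm_num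
    have hp : (0 : ℝ) < 10 ^ l := by positivity
    calc √((N : ℝ) / (j * Real.log p + Real.log D))
        ≤ 400 * 10 ^ l * (Pool.Agent.Run7.h274.WM.gd 10 (10 ^ l) M (√D / p ^ j) N : ℝ) := h1
      _ ≤ 400 * 10 ^ l * (16 * 10 ^ l * (occ l W (m * (√D / p ^ j)) N : ℝ)) :=
          mul_le_mul_of_nonneg_left h3 (by positivity)
      _ = 6400 * 100 ^ l * (occ l W (m * (√D / p ^ j)) N : ℝ) := by rw [e4]; ring
  refine ⟨fun l p j D N M hl h => ?_, part2, fun l n p j D N M hl hn h => ?_, fun N M hM hN d hd => ?_⟩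
  · have h1 := gd_bound hl h
    have hpo := hpos l p j D N M hl h
    have hM := h.2.2.2.2.2.2
    have hM0 : 1 ≤ M := by
      have : 1 ≤ 10 ^ l := Nat.one_le_pow _ _ (by norm_num)
      omega
    set S : Finset ℕ :=
      {k ∈ range N | Pool.Agent.Run7.h274.WM.Good 10 (10 ^ l) M (√D / p ^ j) k} with hS
    have hgd : Pool.Agent.Run7.h274.WM.gd 10 (10 ^ l) M (√D / p ^ j) N = S.card := by
      unfold Pool.Agent.Run7.h274.WM.gd
      rw [hS]
    rw [hgd] at h1
    refine ⟨S, ?_, filter_subset _ _, h1, fun k hk W hW => ?_⟩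
    · rw [← card_pos]
      by_contra h0
      have h0' : S.card = 0 := by omega
      rw [h0'] at h1
      simp only [Nat.cast_zero, mul_zero] at h1
      linarith
    · have h2 := Pool.Agent.Run7.h274.WM.good_both (b := 10) (by norm_num) hM0 (√D / p ^ j) k
        (mem_filter.1 hk).2 W hW
      simp only [Nat.cast_ofNat] at h2
      exact h2
  · have hln : 1 ≤ l * n := Nat.mul_pos hl hn
    have h1 := gd_bound hln h
    have hM := h.2.2.2.2.2.2
    have hM0 : 1 ≤ M := by
      have : 1 ≤ 10 ^ (l * n) := Nat.one_le_pow _ _ (by norm_num)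
      omega
    have h2 := Pool.Agent.Run7.h274.WM.almost_all (b := 10) (by norm_num) hl hM0 (n := n)
      (√D / p ^ j) N
    refine le_trans (Nat.mul_le_mul_left _ (card_le_card fun m hm => ?_)) h2
    rw [mem_filter] at hm ⊢
    obtain ⟨hm1, W, hW, hlt⟩ := hm
    refine ⟨hm1, W, hW, ?_⟩
    rw [hocc]
    have h3 := lt_of_lt_of_le hlt h1
    have hp : (0 : ℝ) < 10 ^ (l * n) := by positivity
    have h4 : (2 * (((l * n : ℕ)) : ℝ) * ((occ l W (m * (√D / p ^ j)) N : ℝ) + ((l * n : ℕ) : ℝ))) <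
        (Pool.Agent.Run7.h274.WM.gd 10 (10 ^ (l * n)) M (√D / p ^ j) N : ℝ) := by
      push_cast
      have h5 : 800 * ((l : ℝ) * n) * 10 ^ (l * n) * ((occ l W (m * (√D / p ^ j)) N : ℝ) + l * n) =
          400 * 10 ^ (l * n) * (2 * ((l : ℝ) * n) * ((occ l W (m * (√D / p ^ j)) N : ℝ) + l * n)) := by
        ring
      rw [h5] at h3
      exact lt_of_mul_lt_mul_left h3 (by positivity)
    exact_mod_cast h4
  · -- the digits of `m √2 / 361`
    have hl19 : Real.log 19 ≤ 3 := by
      rw [Real.log_le_iff_le_exp (by norm_num)]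
      have h3 := Real.exp_one_gt_d9
      have h4 : Real.exp 3 = Real.exp 1 ^ 3 := by
        rw [← Real.exp_nat_mul]; norm_num
      rw [h4]
      calc (19 : ℝ) ≤ 2.7182818283 ^ 3 := by norm_num
        _ ≤ Real.exp 1 ^ 3 := pow_le_pow_left₀ (by norm_num) h3.le _
    have hl19' : 0 < Real.log 19 := Real.log_pos (by norm_num)
    have hl2 := Real.log_two_lt_d9
    have hl2' := Real.log_two_gt_d9
    have hNR : (2200000 : ℝ) ≤ N := by exact_mod_cast hN
    have had : Admissible 1 19 2 2 N M := by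
      refine ⟨by norm_num, by norm_num, by norm_num, by norm_num, by norm_num, ?_, by omega⟩
      push_cast
      nlinarith
    have h1 := part2 1 19 2 2 N M le_rfl had d (by omega)
    have hpo := hpos 1 19 2 2 N M le_rfl had
    have e16 : 16 * 10 ^ 1 = 160 := by norm_num
    rw [e16] at h1
    refine h1.trans (Nat.mul_le_mul_left _ (card_le_card fun m hm => ?_))
    rw [mem_filter] at hm ⊢
    refine ⟨hm.1, ?_⟩
    obtain ⟨-, hm⟩ := hm
    have e1 : occ 1 d (m * (√((2 : ℕ) : ℝ) / ((19 : ℕ) : ℝ) ^ 2)) N =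
        #{k ∈ range N | ⌊(10 : ℝ) ^ (k + 1) * (m * (√2 / 361))⌋ % 10 = (d : ℤ)} := by
      unfold occ Stands
      norm_num
    rw [e1] at hm
    set c : ℕ := #{k ∈ range N | ⌊(10 : ℝ) ^ (k + 1) * (m * (√2 / 361))⌋ % 10 = (d : ℤ)} with hc
    push_cast at hm hpo
    have hL : (2 : ℝ) * Real.log 19 + Real.log 2 ≤ 6.7 := by linarith
    have hL0 : (0 : ℝ) < 2 * Real.log 19 + Real.log 2 := by linarith
    have hN0 : (0 : ℝ) ≤ N := Nat.cast_nonneg N
    have h67 : √(6.7 : ℝ) ≤ 2.6 := by
      rw [Real.sqrt_le_left (by norm_num)]; norm_num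
    have h3 : √(N : ℝ) ≤ 2.6 * √((N : ℝ) / (2 * Real.log 19 + Real.log 2)) := by
      have h4 : (N : ℝ) ≤ 6.7 * ((N : ℝ) / (2 * Real.log 19 + Real.log 2)) := by
        rw [← mul_div_assoc, le_div_iff₀ hL0]
        nlinarith
      calc √(N : ℝ) ≤ √(6.7 * ((N : ℝ) / (2 * Real.log 19 + Real.log 2))) := Real.sqrt_le_sqrt h4
        _ = √6.7 * √((N : ℝ) / (2 * Real.log 19 + Real.log 2)) := Real.sqrt_mul (by norm_num) _
        _ ≤ 2.6 * √((N : ℝ) / (2 * Real.log 19 + Real.log 2)) :=
            mul_le_mul_of_nonneg_right h67 (Real.sqrt_nonneg _)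
    have hc0 : (0 : ℝ) ≤ c := Nat.cast_nonneg c
    rw [show (6400 : ℝ) * 100 ^ 1 = 640000 by norm_num] at hm
    constructor
    · nlinarith
    · by_contra h0
      have h0' : c = 0 := by omega
      rw [h0'] at hm
      simp only [Nat.cast_zero, mul_zero] at hm
      linarith

end Pool.Agent.Results.MP_175f55_nt.WordsInMultiples
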